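import Pool.Agent.Q190.ND.Ex

/-!
# Three commuting unital normal CP maps without any dilation
-/

set_option autoImplicit false

namespace Pool.Agent.Results.MP_0a86e9_an.NoDilation

open Pool.Agent.Q190.ND

universe v

/-- **Answer to Q1 (yes).** There are a finite-dimensional Hilbert space `H`, a von Neumann algebra
`A ⊆ B(H)` (in fact `A = B(H)`, `dim H = 9`) and three commuting unital normal completely positive
maps on `A` such that the associated CP-semigroup over `ℕ³` has no dilation: not for any Hilbert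
space `K ⊇ H`, any von Neumann algebra `B ⊆ B(K)` and any semigroup of `*`-endomorphisms of `B`. -/
theorem result : ∃ (A : VonNeumannAlgebra (EuclideanSpace ℂ (Fin 9)))
    (T₁ T₂ T₃ : (EuclideanSpace ℂ (Fin 9) →L[ℂ] EuclideanSpace ℂ (Fin 9)) →
      (EuclideanSpace ℂ (Fin 9) →L[ℂ] EuclideanSpace ℂ (Fin 9))),
    IsUnitalNormalCP A T₁ ∧ IsUnitalNormalCP A T₂ ∧ IsUnitalNormalCP A T₃ ∧
    Commuting A T₁ T₂ T₃ ∧
    ∀ (K : Type v) [NormedAddCommGroup K] [InnerProductSpace ℂ K] [CompleteSpace K]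
      (V : EuclideanSpace ℂ (Fin 9) →ₗᵢ[ℂ] K) (B : VonNeumannAlgebra K)
      (θ : (Fin 3 → ℕ) → (K →L[ℂ] K) → (K →L[ℂ] K)),
      ¬ IsDilation A (semigroup T₁ T₂ T₃) V B θ :=
  ⟨full H9, TO K1, TO KY, TO KZ, TO_ucp _ _ diag1, TO_ucp _ _ diagY, TO_ucp _ _ diagZ,
    fun a _ => ⟨TO_comm cut1 cutY phi12 a, TO_comm cut1 cutZ phi13 a, TO_comm cutY cutZ phi23 a⟩,
    fun _ _ _ _ V B θ => no_dilation V B θ⟩

end Pool.Agent.Results.MP_0a86e9_an.NoDilation
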